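import Pool.Agent.Q208.F.CovSplitClassical

/-!
# `cov(M) < ss_c` is consistent

Adding Cohen reals and then random reals forces `cov(M) = ℵ₁`, while `ss_c` is as large as wanted.
-/

open Cardinal Q208.F

namespace Pool.Agent.Results.MP_70b496_lc.CovBelowSubseries

/-- The sentences `covMLe K` and `sscLe K` say, with the classical truth values, that
`cov(M) ≤ |K|` and `ss_c ≤ |K|`. For every cardinal `κ ≥ ℵ₁` there is a set `P` of forcing
conditions with the countable chain condition, so that all uncountable cardinals are preserved,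
such that every condition forces `cov(M) ≤ ℵ₁` and that `ss_c ≤ κ` fails. -/
theorem result :
    ((∀ K : Type, classical.covMLe K ↔ covM ≤ #K) ∧
      (∀ K : Type, classical.sscLe K ↔ ssc ≤ #K)) ∧
    ∀ κ : Cardinal.{0}, ℵ₁ ≤ κ → ∃ (P : Type) (_ : PartialOrder P),
      Nonempty P ∧ CCC P ∧ CardinalsPreserved P ∧
      (∀ W : Type, #W = ℵ₁ → ∀ p : P, p ∈ (forcing P).covMLe W) ∧
      (∀ W : Type, #W ≤ κ → ∀ p : P, p ∈ (forcing P).neg ((forcing P).sscLe W)) := by
  refine ⟨⟨covMLe_iff, sscLe_iff⟩, fun κ hκ => ?_⟩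
  let L : Type := (Order.succ κ).out
  have hL : #L = Order.succ κ := Cardinal.mk_out _
  have hL1 : ℵ₁ < #L := by rw [hL]; exact Order.lt_succ_of_le hκ
  have hL0 : ℵ₀ < #L := Cardinal.aleph0_lt_aleph_one.trans hL1
  refine ⟨CR L L, inferInstance, ⟨Cond.top⟩, ccc_Cond, cardinalsPreserved ccc_Cond,
    fun W hW p => ?_, fun W hW p => ?_⟩
  · have hle : #W ≤ #L := by rw [hW]; exact hL1.le
    obtain ⟨e⟩ := hle
    refine mem_covMLe e (fun hc => ?_) p
    have h1 := Cardinal.mk_le_aleph0_iff.mpr hc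
    rw [hW] at h1
    exact absurd Cardinal.aleph0_lt_aleph_one (not_lt.mpr h1)
  · have hlt : #W < #L := by rw [hL]; exact Order.lt_succ_of_le hW
    exact not_sscLe hlt hL0 hlt hL0 p

end Pool.Agent.Results.MP_70b496_lc.CovBelowSubseries
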